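import Pool.Agent.R468.GL.Neg

/-!
THE LOCAL LIMIT LAW OF THE ENTRANCE TIMES for the Syracuse map on the negative odd integers. The number
of negative odd `N ≥ -x` whose orbit enters a given finite invariant set (one of the periodic orbits, or
the union of the three known ones) after exactly `k` steps, uniformly for `k` within `O(√(log x))` of
the mean value.

Author: helper468. Uses the local limit theorem for the first hits of a finite set
(Pool/Agent/H499R2/LT), the thin set estimates (Pool/Agent/R344/TH) and Pool/Agent/W26/HN.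
-/

set_option autoImplicit false

namespace Pool.Agent.Results.MP_005f52_nt.LocalLimitLaw

open Filter Topology

/-- The Syracuse map. -/
def Syr (N : ℤ) : ℤ := (3 * N + 1) / 2 ^ padicValInt 2 (3 * N + 1)

/-- The orbit of `N` enters `Z` after exactly `k` steps. -/
def Enters (Z : Finset ℤ) (k : ℕ) (N : ℤ) : Prop := Syr^[k] N ∈ Z ∧ ∀ i < k, Syr^[i] N ∉ Z

/-- the number of the negative odd `N ≥ -x` whose orbit enters `Z` after exactly `k` steps -/
noncomputable def Cnt (Z : Finset ℤ) (x : ℝ) (k : ℕ) : ℕ :=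
  {N : ℤ | -x ≤ (N : ℝ) ∧ N < 0 ∧ Odd N ∧ Enters Z k N}.ncard

/-- Among the negative odd integers, those with the property `P` have natural density `δ`:
`2 / X` times the number of negative odd `N ≥ -X` with `P N` tends to `δ`. -/
def HasDensity (P : ℤ → Prop) (δ : ℝ) : Prop :=
  Tendsto (fun X : ℕ => 2 / (X : ℝ) * ({N : ℤ | -(X : ℤ) ≤ N ∧ N < 0 ∧ Odd N ∧ P N}.ncard : ℝ))
    atTop (𝓝 δ)

/-- the constant of the mean value -/
noncomputable def μ : ℝ := 1 / Real.log (4 / 3)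

/-- the constant of the variance -/
noncomputable def σ2 : ℝ := 2 * Real.log 2 ^ 2 / Real.log (4 / 3) ^ 3

/-- the value at `k` of the density of the normal distribution of mean `μ log x` and variance
`σ2 log x` -/
noncomputable def g (x : ℝ) (k : ℕ) : ℝ :=
  Real.exp (-(((k : ℝ) - μ * Real.log x) ^ 2 / (2 * (σ2 * Real.log x)))) /
    Real.sqrt (2 * Real.pi * (σ2 * Real.log x))

theorem density_of {P : ℤ → Prop} {δ : ℝ}
    (h : Pool.Agent.H499R2.ND.Dn (fun n : ℕ => n % 2 = 1 ∧ P (-(n : ℤ))) (δ / 2)) :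
    HasDensity P δ := by
  unfold HasDensity
  have h1 := h.const_mul 2
  rw [mul_div_cancel₀ δ (by norm_num : (2 : ℝ) ≠ 0)] at h1
  refine h1.congr fun X => ?_
  have e : {N : ℤ | -(X : ℤ) ≤ N ∧ N < 0 ∧ Odd N ∧ P N}
      = (fun n : ℕ => -(n : ℤ)) '' {n : ℕ | 1 ≤ n ∧ n ≤ X ∧ n % 2 = 1 ∧ P (-(n : ℤ))} := by
    ext N
    constructor
    · rintro ⟨g1, g2, g3, g4⟩
      have g3' := Int.odd_iff.1 g3
      refine ⟨N.natAbs, ⟨by omega, by omega, by omega, ?_⟩, ?_⟩
      · have : -((N.natAbs : ℕ) : ℤ) = N := by omega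
        rw [this]; exact g4
      · show -((N.natAbs : ℕ) : ℤ) = N
        omega
    · rintro ⟨n, ⟨g1, g2, g3, g4⟩, rfl⟩
      refine ⟨?_, ?_, ?_, g4⟩
      · show -(X : ℤ) ≤ -(n : ℤ)
        omega
      · show -(n : ℤ) < 0
        omega
      · rw [Int.odd_iff]
        show -(n : ℤ) % 2 = 1
        omega
  rw [e, Set.ncard_image_of_injective _ (fun a b hab => by
    have : -(a : ℤ) = -(b : ℤ) := hab
    omega)]
  unfold Pool.Agent.H499R2.ND.cnt
  ring

/-- THE LOCAL LIMIT LAW OF THE ENTRANCE TIMES. Let `Z` be a nonempty finite set of negative odd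
integers with `Syr(Z) ⊆ Z` (for example one of the periodic orbits, known or not, or the set `C` of
the problem). There are `δ` and a function `Ψ` such that

* `0 < δ ≤ 1`, `δ` is the density, among the negative odd integers, of those whose orbit enters `Z`,
  and `δ = 1` iff all orbits of negative odd integers enter `Z` (for the set `C`: iff Q1 holds);
* `Ψ` is continuous, has period one, lies between `δ log 2` and `2 δ log 2`, and its mean is `δ`;
* `Cnt Z x k / ((x/2) g(x, k)) - Ψ (log_2 (3^k x))` tends to zero as `x → ∞`, uniformly for the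
  integers `k` with `|k - μ log x| ≤ K √(log x)`, for every `K`. -/
theorem result (Z : Finset ℤ) (hne : Z.Nonempty) (hZ : ∀ y ∈ Z, y < 0 ∧ Odd y)
    (hS : ∀ y ∈ Z, Syr y ∈ Z) : ∃ (δ : ℝ) (Ψ : ℝ → ℝ), 0 < δ ∧ δ ≤ 1 ∧
    (δ = 1 ↔ ∀ N : ℤ, N < 0 → Odd N → ∃ k : ℕ, Syr^[k] N ∈ Z) ∧
    HasDensity (fun N => ∃ k : ℕ, Syr^[k] N ∈ Z) δ ∧
    Continuous Ψ ∧ (∀ s : ℝ, Ψ (s + 1) = Ψ s) ∧
    (∀ s : ℝ, δ * Real.log 2 ≤ Ψ s ∧ Ψ s ≤ 2 * δ * Real.log 2) ∧
    (∫ s in (0 : ℝ)..1, Ψ s = δ) ∧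
    ∀ K ε : ℝ, 0 < ε → ∃ X₀ : ℝ, ∀ x : ℝ, X₀ ≤ x → ∀ k : ℕ,
      |(k : ℝ) - μ * Real.log x| ≤ K * Real.sqrt (Real.log x) →
      |(Cnt Z x k : ℝ) / (x / 2 * g x k) - Ψ (Real.logb 2 (3 ^ k * x))| ≤ ε := by
  obtain ⟨δ, Ψ, h1, h2, h3, h4, h5⟩ := Pool.Agent.R468.GL.law_neg hne
    (fun y hy => ⟨(hZ y hy).1, Int.odd_iff.1 (hZ y hy).2⟩) hS
  refine ⟨δ, Ψ, h1, h2, ?_, density_of h4, h5⟩
  rw [h3]
  exact forall_congr' fun N => forall_congr' fun _ => by rw [Int.odd_iff]; rfl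

end Pool.Agent.Results.MP_005f52_nt.LocalLimitLaw
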