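import Pool.Agent.R978.ML.F

set_option autoImplicit false

/-!
# The number and the densities of the cycles of the Syracuse map on the negative odd integers

Every periodic orbit `Z` of the Syracuse map on the negative odd integers has a basin of positive density
`D(Z)` among the negative odd integers. The sum of the `D(Z)` over the periodic orbits that are not entered
by the orbit of any `N ≥ -y` is at most `C y ^ (-c)`; at most `C ε ^ (-1 / (1 + c))` periodic orbits have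
`D(Z) ≥ ε`; and there are only finitely many periodic orbits iff the `D(Z)` are bounded away from zero.
-/

namespace Pool.Agent.Results.MP_005f52_nt.NumberOfCycles

open Filter Topology

/-- The Syracuse map. -/
def Syr (N : ℤ) : ℤ := (3 * N + 1) / 2 ^ padicValInt 2 (3 * N + 1)

/-- `Z` is a periodic orbit of the Syracuse map on the negative odd integers. -/
def IsCycle (Z : Finset ℤ) : Prop :=
  (∃ (x : ℤ) (p : ℕ), 1 ≤ p ∧ Syr^[p] x = x ∧ Z = (Finset.range p).image fun i => Syr^[i] x) ∧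
    ∀ z ∈ Z, z < 0 ∧ z % 2 = 1

/-- Among the negative odd integers, those with the property `P` have natural density `δ`. -/
def HasDensity (P : ℤ → Prop) (δ : ℝ) : Prop :=
  Tendsto (fun X : ℕ => 2 / (X : ℝ) * ({n : ℕ | 1 ≤ n ∧ n ≤ X ∧ n % 2 = 1 ∧ P (-(n : ℤ))}.ncard : ℝ))
    atTop (𝓝 δ)

/-- The orbit of some negative odd integer `N ≥ -y` enters `Z`. -/
def Reached (y : ℕ) (Z : Finset ℤ) : Prop :=
  ∃ N : ℤ, -(y : ℤ) ≤ N ∧ N < 0 ∧ N % 2 = 1 ∧ ∃ k : ℕ, Syr^[k] N ∈ Z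

theorem Syr_eq {x : ℤ} (hx : x % 2 = 1) : Syr x = Pool.Agent.R978.ML.Hs 1 x := by
  obtain ⟨v, h1, h2⟩ := Pool.Agent.R978.ML.Hs_spec odd_one Pool.Agent.R978.ML.h31 x
  set M := Pool.Agent.R978.ML.Hs 1 x with hM
  have hM0 : M ≠ 0 := by intro h; rw [h] at h2; norm_num at h2
  have h3 : padicValInt 2 (3 * x + 1) = v := by
    rw [h1, padicValInt.mul (by positivity) hM0]
    have h4 : padicValInt 2 M = 0 := padicValInt.eq_zero_of_not_dvd (by
      intro h5
      have : (2 : ℤ) ∣ M := by exact_mod_cast h5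
      omega)
    have h5 : padicValInt 2 ((2 : ℤ) ^ v) = v := by
      have e : ((2 : ℤ) ^ v) = ((2 ^ v : ℕ) : ℤ) := by push_cast; ring
      rw [e, padicValInt.of_nat, padicValNat.prime_pow]
    rw [h4, h5, add_zero]
  unfold Syr
  rw [h3, h1, Int.mul_ediv_cancel_left _ (by positivity)]

theorem iter_eq {x : ℤ} (hx : x % 2 = 1) (k : ℕ) : Syr^[k] x = (Pool.Agent.R978.ML.Hs 1)^[k] x := by
  induction k with
  | zero => rfl
  | succ k ih =>
    rw [Function.iterate_succ_apply', Function.iterate_succ_apply', ih,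
      Syr_eq (Pool.Agent.R978.ML.Hs_odd odd_one Pool.Agent.R978.ML.h31 hx k)]

theorem cycle_iff (Z : Finset ℤ) : IsCycle Z ↔ Pool.Agent.R978.ML.SC (-1) Z := by
  unfold IsCycle Pool.Agent.R978.ML.SC Pool.Agent.R978.ML.CycF
  constructor
  · rintro ⟨⟨x, p, hp, hx, hZ⟩, h⟩
    have hxZ : x ∈ Z := by
      rw [hZ, Finset.mem_image]
      exact ⟨0, Finset.mem_range.2 hp, rfl⟩
    have ho := (h x hxZ).2
    refine ⟨⟨x, p, hp, by rw [← iter_eq ho]; exact hx, ?_⟩, fun z hz => ⟨(h z hz).2, by have := (h z hz).1; omega⟩⟩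
    rw [hZ]
    apply Finset.image_congr
    intro i _
    exact iter_eq ho i
  · rintro ⟨⟨x, p, hp, hx, hZ⟩, h⟩
    have hxZ : x ∈ Z := by
      rw [hZ, Finset.mem_image]
      exact ⟨0, Finset.mem_range.2 hp, rfl⟩
    have ho := (h x hxZ).1
    refine ⟨⟨x, p, hp, by rw [iter_eq ho]; exact hx, ?_⟩, fun z hz => ⟨by have := (h z hz).2; omega, (h z hz).1⟩⟩
    rw [hZ]
    apply Finset.image_congr
    intro i _
    exact (iter_eq ho i).symm

theorem reached_iff (y : ℕ) (Z : Finset ℤ) : Reached y Z ↔ Pool.Agent.R978.ML.R1 (-1) y Z := by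
  unfold Reached Pool.Agent.R978.ML.R1
  constructor
  · rintro ⟨N, h1, h2, h3, k, hk⟩
    exact ⟨N, h3, by omega, by omega, k, by rw [← iter_eq h3]; exact hk⟩
  · rintro ⟨N, h1, h2, h3, k, hk⟩
    exact ⟨N, by omega, by omega, h1, k, by rw [iter_eq h1]; exact hk⟩

/-- There are constants `c > 0.049`, larger than `1 - h` where `h = 0.94995...` is the binary entropy of
`log 2 / log 3` in bits, and `C > 0`, and a number `D(Z)` for every finite set `Z`, such that for the periodic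
orbits `Z` of the Syracuse map on the negative odd integers:

1. `0 < D(Z) ≤ 1`, and `D(Z)` is the density among the negative odd integers of those whose orbit enters `Z`;
2. `∑ D(Z) ≤ 1` for all finite sets of periodic orbits;
3. `∑ D(Z) ≤ C y^(-c)` for all `y ≥ 1` and all finite sets of periodic orbits that are entered by no orbit of
   a negative odd integer `N ≥ -y`;
4. for `0 < ε ≤ 1` at most `C (1 / ε)^(1 / (1 + c))` periodic orbits have `D(Z) ≥ ε`;
5. there are only finitely many periodic orbits iff for some `ε > 0` all of them have `D(Z) ≥ ε`. -/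
theorem result : ∃ (c C : ℝ) (D : Finset ℤ → ℝ), 0.049 < c ∧
    1 - Real.binEntropy (Real.log 2 / Real.log 3) / Real.log 2 < c ∧ 0 < C ∧
    (∀ Z : Finset ℤ, IsCycle Z → 0 < D Z ∧ D Z ≤ 1 ∧ HasDensity (fun N => ∃ k : ℕ, Syr^[k] N ∈ Z) (D Z)) ∧
    (∀ S : Finset (Finset ℤ), (∀ Z ∈ S, IsCycle Z) → ∑ Z ∈ S, D Z ≤ 1) ∧
    (∀ y : ℕ, 1 ≤ y → ∀ S : Finset (Finset ℤ), (∀ Z ∈ S, IsCycle Z ∧ ¬ Reached y Z) →
      ∑ Z ∈ S, D Z ≤ C / (y : ℝ) ^ c) ∧
    (∀ ε : ℝ, 0 < ε → ε ≤ 1 → ∀ S : Finset (Finset ℤ), (∀ Z ∈ S, IsCycle Z ∧ ε ≤ D Z) →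
      (S.card : ℝ) ≤ C * (1 / ε) ^ (1 / (1 + c))) ∧
    ({Z : Finset ℤ | IsCycle Z}.Finite ↔ ∃ ε : ℝ, 0 < ε ∧ ∀ Z : Finset ℤ, IsCycle Z → ε ≤ D Z) := by
  obtain ⟨c, h0, h1, D, C, hC, g1, g2, g3, g4, g5⟩ := Pool.Agent.R978.ML.syr_cyc (s := -1) (Or.inr rfl)
  refine ⟨c, C, D, h0, h1, hC, ?_, ?_, ?_, ?_, ?_⟩
  · intro Z hZ
    obtain ⟨a1, a2, a3⟩ := g1 Z ((cycle_iff Z).1 hZ)
    refine ⟨a1, a2, ?_⟩
    have h2 := a3.const_mul 2
    rw [mul_div_cancel₀ (D Z) (by norm_num : (2 : ℝ) ≠ 0)] at h2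
    unfold HasDensity
    refine h2.congr fun X => ?_
    unfold Pool.Agent.H499R2.ND.cnt
    have e : {n : ℕ | 1 ≤ n ∧ n ≤ X ∧ (n % 2 = 1 ∧ ∃ k : ℕ, (Pool.Agent.R978.ML.Hs 1)^[k] (-1 * (n : ℤ)) ∈ Z)} =
        {n : ℕ | 1 ≤ n ∧ n ≤ X ∧ n % 2 = 1 ∧ ∃ k : ℕ, Syr^[k] (-(n : ℤ)) ∈ Z} := by
      ext n
      simp only [Set.mem_ofPred_eq]
      constructor
      · rintro ⟨b1, b2, b3, k, hk⟩
        refine ⟨b1, b2, b3, k, ?_⟩
        rw [iter_eq (by omega), ← neg_one_mul]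
        exact hk
      · rintro ⟨b1, b2, b3, k, hk⟩
        refine ⟨b1, b2, b3, k, ?_⟩
        rw [iter_eq (by omega), ← neg_one_mul] at hk
        exact hk
    rw [e]
    ring
  · intro S hS
    exact g2 S (fun Z hZ => (cycle_iff Z).1 (hS Z hZ))
  · intro y hy S hS
    exact g3 y hy S (fun Z hZ => ⟨(cycle_iff Z).1 (hS Z hZ).1, fun h => (hS Z hZ).2 ((reached_iff y Z).2 h)⟩)
  · intro ε hε hε1 S hS
    exact g4 ε hε hε1 S (fun Z hZ => ⟨(cycle_iff Z).1 (hS Z hZ).1, (hS Z hZ).2⟩)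
  · have e : {Z : Finset ℤ | IsCycle Z} = {Z : Finset ℤ | Pool.Agent.R978.ML.SC (-1) Z} := by
      ext Z
      exact cycle_iff Z
    rw [e, g5]
    constructor
    · rintro ⟨ε, hε, h⟩
      exact ⟨ε, hε, fun Z hZ => h Z ((cycle_iff Z).1 hZ)⟩
    · rintro ⟨ε, hε, h⟩
      exact ⟨ε, hε, fun Z hZ => h Z ((cycle_iff Z).2 hZ)⟩

end Pool.Agent.Results.MP_005f52_nt.NumberOfCycles
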