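import Pool.Agent.R344.LS.AA

/-!
# The reciprocal mass of the negative odd integers entering a set of cycles after `k` steps

Let `Z` be a finite union of periodic orbits of the Syracuse map on the negative odd integers. The sum
of `1/|N|` over the negative odd `N` whose orbit enters `Z` after exactly `k` steps tends to
`(1/2) log (4/3) δ`, where `δ` is the density of the negative odd integers whose orbit enters `Z`; the
mass is distributed over the values of `x_1 + ... + x_k` like the sum of `k` independent geometric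
random variables of parameter `1/2`. The conjecture for the three known orbits holds iff for them the
limit is `(1/2) log (4/3)`.

Author: helper344.
-/

set_option autoImplicit false

namespace Pool.Agent.Results.MP_005f52_nt.ReciprocalMassOfLevels

open Filter Topology

/-- The Syracuse map. -/
def Syr (N : ℤ) : ℤ := (3 * N + 1) / 2 ^ padicValInt 2 (3 * N + 1)

/-- The orbit of `N` enters `Z` after exactly `k` steps. -/
def Enters (Z : Finset ℤ) (k : ℕ) (N : ℤ) : Prop := Syr^[k] N ∈ Z ∧ ∀ i < k, Syr^[i] N ∉ Z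

/-- the sum `x_1 + ... + x_k` of the first `k` exponents of `N` -/
def exps (k : ℕ) (N : ℤ) : ℕ := ∑ i ∈ Finset.range k, padicValInt 2 (3 * Syr^[i] N + 1)

/-- the sum of the reciprocals of the members of a set of positive integers -/
noncomputable def mass (A : Set ℕ) : ℝ := ∑' n : A, (1 : ℝ) / ((n : ℕ) : ℝ)

/-- Among the negative odd integers, those with the property `P` have natural density `δ`. -/
def HasDensity (P : ℤ → Prop) (δ : ℝ) : Prop :=
  Tendsto (fun X : ℕ => 2 / (X : ℝ) * ({n : ℕ | 1 ≤ n ∧ n ≤ X ∧ n % 2 = 1 ∧ P (-(n : ℤ))}.ncard : ℝ))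
    atTop (𝓝 δ)

/-- the union of the three known periodic orbits -/
def known : Finset ℤ := {-1, -5, -7, -17, -25, -37, -55, -41, -61, -91}

theorem density_of {P : ℤ → Prop} {δ : ℝ}
    (h : Pool.Agent.H499R2.ND.Dn (fun n : ℕ => n % 2 = 1 ∧ P (-(n : ℤ))) (δ / 2)) : HasDensity P δ := by
  unfold HasDensity
  have h1 := h.const_mul 2
  rw [mul_div_cancel₀ δ (by norm_num : (2 : ℝ) ≠ 0)] at h1
  refine h1.congr fun X => ?_
  unfold Pool.Agent.H499R2.ND.cnt
  ring

/-- (1) Let `Z` be a nonempty finite set of negative odd integers with `Syr(Z) ⊆ Z`. There is a `δ`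
such that

* `0 < δ ≤ 1`, `δ` is the density, among the negative odd integers, of those whose orbit enters `Z`,
  and `δ = 1` iff all orbits of negative odd integers enter `Z`;
* for every `k` the sum of `1/n` over the odd `n ≥ 1` such that the orbit of `-n` enters `Z` after
  exactly `k` steps converges, and it tends to `(1/2) log (4/3) δ` as `k → ∞`;
* for every `ε > 0`, all large `k` and all `K`, the sum over `j < K` of the differences, in absolute
  value, between the part of this sum with `exps k (-n) = j + 1` and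
  `(1/2) log (4/3) δ binom (j, k - 1) / 2^(j + 1)` is at most `ε`.

(2) All orbits of negative odd integers enter one of the three known periodic orbits iff the sum of
`1/n` over the odd `n ≥ 1` such that the orbit of `-n` enters them after exactly `k` steps tends to
`(1/2) log (4/3)`. -/
theorem result : (∀ Z : Finset ℤ, Z.Nonempty → (∀ y ∈ Z, y < 0 ∧ y % 2 = 1) → (∀ y ∈ Z, Syr y ∈ Z) →
      ∃ δ : ℝ, 0 < δ ∧ δ ≤ 1 ∧
      (δ = 1 ↔ ∀ N : ℤ, N < 0 → N % 2 = 1 → ∃ k : ℕ, Syr^[k] N ∈ Z) ∧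
      HasDensity (fun N => ∃ k : ℕ, Syr^[k] N ∈ Z) δ ∧
      (∀ k : ℕ, Summable (fun n : {n : ℕ | n % 2 = 1 ∧ Enters Z k (-(n : ℤ))} => (1 : ℝ) / ((n : ℕ) : ℝ))) ∧
      Tendsto (fun k : ℕ => mass {n : ℕ | n % 2 = 1 ∧ Enters Z k (-(n : ℤ))}) atTop
        (𝓝 (Real.log (4 / 3) / 2 * δ)) ∧
      (∀ ε : ℝ, 0 < ε → ∃ k₀ : ℕ, ∀ k : ℕ, k₀ ≤ k → ∀ K : ℕ, ∑ j ∈ Finset.range K,
        |mass {n : ℕ | n % 2 = 1 ∧ Enters Z k (-(n : ℤ)) ∧ exps k (-(n : ℤ)) = j + 1} -
          Real.log (4 / 3) / 2 * δ * ((j.choose (k - 1) : ℝ) / 2 ^ (j + 1))| ≤ ε)) ∧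
    ((∀ N : ℤ, N < 0 → N % 2 = 1 → ∃ k : ℕ, Syr^[k] N ∈ known) ↔
      Tendsto (fun k : ℕ => mass {n : ℕ | n % 2 = 1 ∧ Enters known k (-(n : ℤ))}) atTop
        (𝓝 (Real.log (4 / 3) / 2))) := by
  have hall : ∀ Z : Finset ℤ, Z.Nonempty → (∀ y ∈ Z, y < 0 ∧ y % 2 = 1) → (∀ y ∈ Z, Syr y ∈ Z) →
      ∃ δ : ℝ, 0 < δ ∧ δ ≤ 1 ∧
      (δ = 1 ↔ ∀ N : ℤ, N < 0 → N % 2 = 1 → ∃ k : ℕ, Syr^[k] N ∈ Z) ∧
      HasDensity (fun N => ∃ k : ℕ, Syr^[k] N ∈ Z) δ ∧
      (∀ k : ℕ, Summable (fun n : {n : ℕ | n % 2 = 1 ∧ Enters Z k (-(n : ℤ))} => (1 : ℝ) / ((n : ℕ) : ℝ))) ∧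
      Tendsto (fun k : ℕ => mass {n : ℕ | n % 2 = 1 ∧ Enters Z k (-(n : ℤ))}) atTop
        (𝓝 (Real.log (4 / 3) / 2 * δ)) ∧
      (∀ ε : ℝ, 0 < ε → ∃ k₀ : ℕ, ∀ k : ℕ, k₀ ≤ k → ∀ K : ℕ, ∑ j ∈ Finset.range K,
        |mass {n : ℕ | n % 2 = 1 ∧ Enters Z k (-(n : ℤ)) ∧ exps k (-(n : ℤ)) = j + 1} -
          Real.log (4 / 3) / 2 * δ * ((j.choose (k - 1) : ℝ) / 2 ^ (j + 1))| ≤ ε) := by
    intro Z hne hZ hS
    obtain ⟨δ, h1, h2, h3, h4, h5⟩ := Pool.Agent.R344.LS.neg_law hne hZ hS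
    exact ⟨δ, h1, h2, h3, density_of h4, h5⟩
  refine ⟨hall, ?_⟩
  have hS : ∀ y ∈ known, Syr y ∈ known := by
    intro y hy
    have key : ∀ (N M : ℤ) (v : ℕ), 3 * N + 1 = 2 ^ v * M → M % 2 = 1 → Syr N = M :=
      fun N M v h hM => Pool.Agent.W26.HN.Sy_eq h hM
    simp only [known, Finset.mem_insert, Finset.mem_singleton] at hy ⊢
    rcases hy with rfl | rfl | rfl | rfl | rfl | rfl | rfl | rfl | rfl | rfl
    · rw [key (-1) (-1) 1 (by norm_num) (by norm_num)]; simp
    · rw [key (-5) (-7) 1 (by norm_num) (by norm_num)]; simp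
    · rw [key (-7) (-5) 2 (by norm_num) (by norm_num)]; simp
    · rw [key (-17) (-25) 1 (by norm_num) (by norm_num)]; simp
    · rw [key (-25) (-37) 1 (by norm_num) (by norm_num)]; simp
    · rw [key (-37) (-55) 1 (by norm_num) (by norm_num)]; simp
    · rw [key (-55) (-41) 2 (by norm_num) (by norm_num)]; simp
    · rw [key (-41) (-61) 1 (by norm_num) (by norm_num)]; simp
    · rw [key (-61) (-91) 1 (by norm_num) (by norm_num)]; simp
    · rw [key (-91) (-17) 4 (by norm_num) (by norm_num)]; simp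
  obtain ⟨δ, h0, h1, h2, _, _, h5, _⟩ := hall known ⟨-1, by decide⟩ (by decide) hS
  have hl : 0 < Real.log (4 / 3) := Real.log_pos (by norm_num)
  rw [← h2]
  constructor
  · intro h
    rw [h, mul_one] at h5
    exact h5
  · intro h
    have h7 := tendsto_nhds_unique h5 h
    have h8 : Real.log (4 / 3) / 2 * (δ - 1) = 0 := by linear_combination h7
    rcases mul_eq_zero.1 h8 with h9 | h9
    · linarith
    · linarith

end Pool.Agent.Results.MP_005f52_nt.ReciprocalMassOfLevels
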